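import Pool.Agent.Helper76.PB.GoalsV
import Pool.Agent.Helper42.PP1.NRM
import Pool.Agent.Helper32.PP.BNOR

/-!
# Packet PB-VALN (MP_fc6b1e_nt): `NrmInd` for `χ₀ ≠ 1`
-/

set_option autoImplicit false

namespace Pool.Agent.Helper99.PB

open NumberField Polynomial Module IsDedekindDomain
open Pool.Agent.Helper51.RP Pool.Agent.Helper42.RD Pool.Agent.Helper42.PP Pool.Agent.Helper42.PP1
open Pool.Agent.Helper42.PB Pool.Agent.Helper76.PB
open Pool.Agent.Helper40.RS (bel lies gw val_smul bel_smul)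
open Pool.Agent.Helper40.RD (valW ordW bel_of_above)
open Pool.Agent.Helper32.PP
open scoped Pointwise

/-- The norm of an element with `LocS`. -/
theorem locS_nrm (p : ℕ) (K E F : Type) [Field K] [NumberField K] [Field E]
    [NumberField E] [Field F] [NumberField F] [Algebra K E] [Algebra K F] [Algebra E F]
    [IsScalarTower K E F] [IsGalois K E] [IsGalois K F] (S : Finset (HeightOneSpectrum (𝓞 K)))
    (x : Fˣ) (hx : LocS p (up F S) x) : LocS p (up E S) (nrm E F x) := by
  have hEF : IsGalois E F := IsGalois.tower_top_of_isGalois K E F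
  have h1 := Pool.Agent.Helper16.PP.p_upr
  have hex : ∀ w : HeightOneSpectrum (𝓞 E), ∃ W : HeightOneSpectrum (𝓞 F), bel E W = w := by
    intro w
    obtain ⟨-, -, -, -, -, h, -⟩ := h1 p E F ∅
    obtain ⟨W, hW⟩ := h w
    exact ⟨W, bel_of_above hW⟩
  have hbK : ∀ (h : F ≃ₐ[E] F) (W : HeightOneSpectrum (𝓞 F)), bel K (gw h W) = bel K W := by
    intro h W
    rw [← bel_bel K (E := E), bel_gw, bel_bel K (E := E)]
  have hup : ∀ W : HeightOneSpectrum (𝓞 F), W ∈ up F S ↔ bel E W ∈ up E S := by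
    intro W
    rw [mem_up, mem_up, bel_bel]
  have hupg : ∀ (h : F ≃ₐ[E] F) (W : HeightOneSpectrum (𝓞 F)), W ∈ up F S →
      gw h W ∈ up F S := by
    intro h W hW
    rw [mem_up, hbK, ← mem_up]
    exact hW
  obtain ⟨y, hy⟩ := hx
  refine ⟨nrm E F y, fun w hw => ?_⟩
  obtain ⟨W, rfl⟩ := hex w
  have hW : W ∈ up F S := (hup W).2 hw
  have e0 : ((nrm E F x : Eˣ) : E) * ((nrm E F y : Eˣ) : E) ^ p =
      ((nrm E F (x * y ^ p) : Eˣ) : E) := by
    rw [map_mul, map_pow, Units.val_mul, Units.val_pow_eq_pow_val]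
  rw [e0]
  have e1 : ∀ h : F ≃ₐ[E] F, h ((x * y ^ p : Fˣ) : F) - 1 =
      h ((x : F) * (y : F) ^ p - 1) := by
    intro h
    rw [map_sub, map_one, Units.val_mul, Units.val_pow_eq_pow_val]
  have hp1 : W.valuation F (p : F) ≤ 1 := by
    have := W.valuation_le_one (K := F) (p : 𝓞 F)
    simpa using this
  have hpg : ∀ h : F ≃ₐ[E] F, (gw h⁻¹ W).valuation F (p : F) = W.valuation F (p : F) := by
    intro h
    rw [← val_gal, map_natCast]
  constructor
  · have h2 : W.valuation F (algebraMap E F (((nrm E F (x * y ^ p) : Eˣ) : E) - 1)) < 1 := by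
      rw [map_sub, map_one, norm_coe]
      refine prod_lt W _ _ fun h _ => ?_
      rw [e1, val_gal]
      exact (hy _ (hupg _ _ hW)).1
    rw [valW] at h2
    exact (pow_lt_one_iff (e_ne W)).1 h2
  · have h2 : W.valuation F (algebraMap E F (((nrm E F (x * y ^ p) : Eˣ) : E) - 1)) ≤
        W.valuation F (p : F) ^ 3 := by
      rw [map_sub, map_one, norm_coe]
      refine prod_le' W _ _ _ (pow_le_one₀ zero_le hp1) fun h _ => ?_
      rw [e1, val_gal, ← hpg h]
      exact (hy _ (hupg _ _ hW)).2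
    have h3 : (p : F) = algebraMap E F (p : E) := by rw [map_natCast]
    rw [h3, valW, valW, ← pow_mul, mul_comm _ 3, pow_mul] at h2
    exact (pow_le_pow_iff_left₀ zero_le zero_le (e_ne W)).1 h2

/-- **V_ALN'** from `V_LINE`. -/
theorem v_aln' (h1 : Pool.Agent.Helper76.PB.V_LINE) : Pool.Agent.Helper76.PB.V_ALN' := by
  intro p hp K M K₁ M₁ J M₂ _ _ _ _ _ _ _ _ _ _ _ _ _ _ _ _ _ _ _ _ _ _ _ _ ε δ P a₀ hs hne
    B D n E β hβu hβN
  have := hs.t1
  have := hs.t2
  have := hs.sit.st1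
  have := hs.sit.gM
  have := hs.sit.gMK
  have := hs.gM₂
  haveI : Fact (Irreducible P) := ⟨hs.sit.irr⟩
  obtain ⟨s, -, hsinv, hline⟩ := h1 p K M K₁ M₁ J M₂ ε δ P a₀ hs B D
  obtain ⟨n1, n2, -, -⟩ := b_nor Pool.Agent.Helper16.PP.p_upr p K M M₁ B.S
  set f₀ : Mˣ → AdjoinRoot P := fun x => ∑ j, β j * E.h j x with hf₀
  have hP : IsP δ P f₀ := by
    constructor
    · intro x y
      show ∑ j, β j * E.h j (x * y) = ∑ j, β j * E.h j x + ∑ j, β j * E.h j y
      rw [← Finset.sum_add_distrib]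
      exact Finset.sum_congr rfl fun j _ => by rw [(E.hP j).1, mul_add]
    · intro x
      show ∑ j, β j * E.h j (act δ x) = AdjoinRoot.root P * ∑ j, β j * E.h j x
      rw [Finset.mul_sum]
      exact Finset.sum_congr rfl fun j _ => by
        rw [(E.hP j).2]
        ring
  have hL : ∀ x, LocS p (up M B.S) x → f₀ x = 0 := by
    intro x hx
    exact Finset.sum_eq_zero fun j _ => by rw [E.hL j x hx, mul_zero]
  have hU : ∀ x ∈ (up M B.S).unit M, f₀ x = 0 := by
    intro x hx
    have h2 := (((w_nrm p K M K₁ M₁ ε δ P hs.sit B).1 f₀ hP).2.1) x hx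
    unfold Base.til at h2
    rw [Finset.sum_eq_zero fun i _ => by
      rw [show f₀ (B.u i) = 0 from hβu i, zero_mul], sub_zero] at h2
    exact h2
  have hN12 : ∀ y : M₂ˣ, nrm M M₁ (nrm M₁ M₂ y) = nrm M M₂ y := by
    intro y
    apply Units.ext
    show Algebra.norm M (Algebra.norm M₁ (y : M₂)) = Algebra.norm M (y : M₂)
    exact Algebra.norm_norm
  set g := δ.liftNormal M₁ with hg
  have hgc : ∀ y : M, g (algebraMap M M₁ y) = algebraMap M M₁ (δ y) := fun y =>
    AlgEquiv.liftNormal_commutes δ M₁ y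
  have key : ∀ x : M₁ˣ, f₀ (nrm M M₁ x) = 0 := by
    intro x
    have h2 : ∀ φ : Module.Dual (ZMod p) (AdjoinRoot P),
        φ ((AdjoinRoot.root P - 1) * f₀ (nrm M M₁ x)) = 0 := by
      intro φ
      have hk : Kil p (up M₁ B.S) (fun z : M₁ˣ => φ (f₀ (nrm M M₁ z))) := by
        constructor
        · intro z w
          show φ (f₀ (nrm M M₁ (z * w))) = φ (f₀ (nrm M M₁ z)) + φ (f₀ (nrm M M₁ w))
          rw [map_mul, hP.1, map_add]
        · intro z hz
          show φ (f₀ (nrm M M₁ z)) = 0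
          rw [hL _ (locS_nrm p K M M₁ B.S z hz), map_zero]
        · intro z hz
          show φ (f₀ (nrm M M₁ z)) = 0
          rw [hU _ (n1 z hz), map_zero]
      obtain ⟨c, hc⟩ := hline _ hk (fun y => by
        show φ (f₀ (nrm M M₁ (nrm M₁ M₂ y))) = 0
        rw [hN12, show f₀ (nrm M M₂ y) = 0 from hβN y, map_zero])
      have e1 := hc (act g x)
      have e2 := hc x
      rw [hsinv g x, ← e2] at e1
      have e3 : f₀ (nrm M M₁ (act g x)) = AdjoinRoot.root P * f₀ (nrm M M₁ x) := by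
        rw [((n2 g δ hgc) x).1, hP.2]
      simp only [e3] at e1
      rw [sub_mul, one_mul, map_sub, e1, sub_self]
    have h3 := (Module.forall_dual_apply_eq_zero_iff (ZMod p) _).1 h2
    exact (mul_eq_zero.1 h3).resolve_left (sub_ne_zero.2 hne)
  have key2 : ∀ y : Mˣ, f₀ y = 0 := by
    intro y
    have e1 := key (inc M M₁ y)
    have e2 : nrm M M₁ (inc M M₁ y) = y ^ finrank M M₁ := by
      apply Units.ext
      rw [Units.val_pow_eq_pow_val]
      exact Algebra.norm_algebraMap (y : M)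
    rw [e2] at e1
    have e3 : ∀ k : ℕ, f₀ (y ^ k) = (k : AdjoinRoot P) * f₀ y := by
      intro k
      induction k with
      | zero =>
        have := hP.1 1 1
        rw [mul_one] at this
        simp only [pow_zero, Nat.cast_zero, zero_mul]
        exact left_eq_add.1 this
      | succ k ih =>
        rw [pow_succ, hP.1, ih]
        push_cast
        ring
    rw [e3] at e1
    refine (mul_eq_zero.1 e1).resolve_left ?_
    intro h0
    have h4 : algebraMap (ZMod p) (AdjoinRoot P) ((finrank M M₁ : ℕ) : ZMod p) = 0 := by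
      rw [map_natCast]
      exact h0
    have h5 : ((finrank M M₁ : ℕ) : ZMod p) = 0 := by
      apply (algebraMap (ZMod p) (AdjoinRoot P)).injective
      rw [h4, map_zero]
    rw [ZMod.natCast_eq_zero_iff] at h5
    have h6 := Nat.dvd_gcd h5 (dvd_refl p)
    rw [hs.sit.c1] at h6
    exact hp.out.one_lt.ne' (Nat.dvd_one.1 h6)
  exact E.hI β key2

end Pool.Agent.Helper99.PB
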