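import Pool.Agent.Helper76.PB.GoalsF
import Pool.Agent.Helper99.RS.QEX

/-!
# Packet PB-XDN (MP_fc6b1e_nt): at most one functional
-/

set_option autoImplicit false

namespace Pool.Agent.Helper99.PB

open NumberField Polynomial Module IsDedekindDomain
open Pool.Agent.Helper76.PB
open Pool.Agent.Helper38.RS (pz)
open Pool.Agent.Helper99.RS (pz_mono)

/-- **X_DN** from `X_DK` and `X_SPD`. -/
theorem x_dn (h1 : Pool.Agent.Helper76.PB.X_DK) (h2 : Pool.Agent.Helper76.PB.X_SPD) :
    Pool.Agent.Helper76.PB.X_DN := by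
  intro p _ F E _ _ _ _ _ _ _ hfin Z hZ hab hun hpr f₁ f₂ k₁ k₂ v₁ v₂ hne
  by_contra hcon
  push Not at hcon
  have hp : p.Prime := Fact.out
  -- linear independence
  have hli : ∀ c : Fin 2 → ZMod p, (∀ x, ∑ i, c i * (![f₁, f₂] : Fin 2 → Fˣ → ZMod p) i x = 0) →
      c = 0 := by
    intro c hc
    have hc' : ∀ x, c 0 * f₁ x + c 1 * f₂ x = 0 := by
      intro x
      have := hc x
      simpa [Fin.sum_univ_two] using this
    by_cases h : c 1 = 0
    · have h0 : c 0 = 0 := by
        obtain ⟨x, hx⟩ := hne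
        have := hc' x
        rw [h, zero_mul, add_zero] at this
        exact (mul_eq_zero.1 this).resolve_right hx
      funext i
      fin_cases i
      · exact h0
      · exact h
    · exfalso
      obtain ⟨x, hx⟩ := hcon (-(c 0) / c 1)
      apply hx
      have := hc' x
      field_simp
      linear_combination this
  have hkil : ∀ i, Kil p Z ((![f₁, f₂] : Fin 2 → Fˣ → ZMod p) i) := by
    intro i
    fin_cases i
    · exact k₁
    · exact k₂
  obtain ⟨C1, hC1⟩ := h1 p F Z hZ hab hpr 2 ![f₁, f₂] hkil hli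
  obtain ⟨C2, hC2⟩ := h2 F E Z hZ hun
  have hsub : SplZ E Z ⊆ {w : HeightOneSpectrum (𝓞 F) | w ∉ Z ∧
      ∀ i, Van Z ((![f₁, f₂] : Fin 2 → Fˣ → ZMod p) i) w} := by
    intro w hw
    refine ⟨hw.1, fun i => ?_⟩
    fin_cases i
    · exact v₁ w hw
    · exact v₂ w hw
  have key : ∀ s : ℝ, 1 < s → s ≤ 2 →
      (1 / (p : ℝ) - 1 / (p : ℝ) ^ 2) * Real.log (1 / (s - 1)) ≤ C1 + C2 := by
    intro s hs hs2
    have e1 := hC1 s hs hs2
    have e2 := hC2 s hs hs2
    have e3 := pz_mono hsub s hs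
    rw [hfin] at e2
    rw [sub_mul]
    linarith
  have hp1 : (1 : ℝ) < p := by exact_mod_cast hp.one_lt
  have hd : 0 < 1 / (p : ℝ) - 1 / (p : ℝ) ^ 2 := by
    have h3 : (1 : ℝ) / (p : ℝ) ^ 2 < 1 / (p : ℝ) := by
      apply one_div_lt_one_div_of_lt (by linarith)
      nlinarith
    linarith
  set d : ℝ := 1 / (p : ℝ) - 1 / (p : ℝ) ^ 2 with hddef
  set K := C1 + C2 with hK
  set t : ℝ := |K| / d + 1 with ht
  have ht0 : 0 < t := by positivity
  have h3 := key (1 + Real.exp (-t)) (by linarith [Real.exp_pos (-t)])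
    (by linarith [Real.exp_le_one_iff.2 (by linarith : -t ≤ 0)])
  have h4 : Real.log (1 / (1 + Real.exp (-t) - 1)) = t := by
    rw [add_sub_cancel_left, one_div, Real.log_inv, Real.log_exp, neg_neg]
  rw [h4, ht, mul_add, mul_div_cancel₀ _ hd.ne', mul_one] at h3
  linarith [le_abs_self K]

end Pool.Agent.Helper99.PB
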